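import Pool.Agent.Helper38.EC.Goals

/-! MP_ecc237_nt, Part I, packet RECT. -/

set_option autoImplicit false

open MeasureTheory Filter Topology Set Complex

namespace Pool.Agent.Helper62.EC.I_RECT

open EC237.PI

/-- The integral over the two far sides of the square. -/
noncomputable def far (f : ℂ → ℂ) (R : ℝ) : ℂ :=
  (∫ x in (0:ℝ)..R, f (x + ((-R : ℝ) : ℂ) * I)) + I * ∫ y in (-R)..(0:ℝ), f ((R:ℂ) + y * I)

theorem rect {F : ℂ → ℂ} (hc : ContinuousOn F {z | 0 ≤ z.re ∧ z.im ≤ 0})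
    (hd : DifferentiableOn ℂ F Qo) (h0 : ∀ y : ℝ, y ≤ 0 → (F (y * I)).re = 0) {R : ℝ}
    (hR : 0 < R) : (∫ x in (0:ℝ)..R, F x).im = (far F R).im := by
  have h := Complex.integral_boundary_rect_eq_zero_of_continuousOn_of_differentiableOn F
    ⟨0, -R⟩ ⟨R, 0⟩ (hc.mono (by
      intro z hz
      rw [mem_reProdIm] at hz
      simp only [] at hz
      rw [uIcc_of_le hR.le, uIcc_of_le (by linarith : -R ≤ 0)] at hz
      exact ⟨hz.1.1, hz.2.2⟩)) (hd.mono (by
      intro z hz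
      rw [mem_reProdIm] at hz
      simp only [] at hz
      rw [min_eq_left hR.le, max_eq_right (by linarith : -R ≤ 0)] at hz
      exact ⟨hz.1.1, hz.2.2⟩))
  simp only [smul_eq_mul, ofReal_zero, zero_mul, add_zero, zero_add] at h
  have h1 : (∫ y in (-R)..(0:ℝ), F (y * I)).re = 0 := by
    have h2 : ∫ y in (-R)..(0:ℝ), F (y * I) = ∫ y in (-R)..(0:ℝ), ((F (y * I)).im : ℂ) * I := by
      refine intervalIntegral.integral_congr fun y hy => ?_
      rw [uIcc_of_le (by linarith : -R ≤ 0)] at hy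
      have := h0 y hy.2
      apply Complex.ext
      · simp [this]
      · simp
    rw [h2, intervalIntegral.integral_mul_const, intervalIntegral.integral_ofReal]
    simp
  have h2 : ∫ x in (0:ℝ)..R, F x = far F R - I * ∫ y in (-R)..(0:ℝ), F (y * I) := by
    rw [far]
    linear_combination -h
  rw [h2, Complex.sub_im, Complex.mul_im, h1]
  simp

theorem far_bound {f : ℂ → ℂ} {C : ℝ} (hf : ∀ z ∈ Qd, 1 ≤ ‖z‖ → ‖f z‖ ≤ C / ‖z‖ ^ 2) {R : ℝ}
    (hR : 1 ≤ R) (hC : 0 ≤ C) : ‖far f R‖ ≤ 2 * C / R := by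
  have hR0 : 0 < R := by linarith
  have key : ∀ z : ℂ, z ∈ Qd → R ≤ ‖z‖ → ‖f z‖ ≤ C / R ^ 2 := by
    intro z hz hzR
    refine (hf z hz (hR.trans hzR)).trans ?_
    gcongr
  have h1 : ‖∫ x in (0:ℝ)..R, f (x + ((-R : ℝ) : ℂ) * I)‖ ≤ C / R ^ 2 * |R - 0| := by
    refine intervalIntegral.norm_integral_le_of_norm_le_const fun x hx => ?_
    rw [uIoc_of_le hR0.le] at hx
    have hre : ((x:ℂ) + ((-R : ℝ) : ℂ) * I).re = x := by simp
    have him : ((x:ℂ) + ((-R : ℝ) : ℂ) * I).im = -R := by simp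
    refine key _ ⟨by rw [hre]; exact hx.1.le, by rw [him]; linarith, ?_⟩ ?_
    · intro h
      rw [h] at him
      simp at him
      linarith
    · have := Complex.abs_im_le_norm ((x:ℂ) + ((-R : ℝ) : ℂ) * I)
      rw [him, abs_neg, abs_of_pos hR0] at this
      exact this
  have h2 : ‖∫ y in (-R)..(0:ℝ), f ((R:ℂ) + y * I)‖ ≤ C / R ^ 2 * |0 - (-R)| := by
    refine intervalIntegral.norm_integral_le_of_norm_le_const fun y hy => ?_
    rw [uIoc_of_le (by linarith : -R ≤ 0)] at hy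
    have hre : ((R:ℂ) + (y:ℂ) * I).re = R := by simp
    have him : ((R:ℂ) + (y:ℂ) * I).im = y := by simp
    refine key _ ⟨by rw [hre]; exact hR0.le, by rw [him]; exact hy.2, ?_⟩ ?_
    · intro h
      rw [h] at hre
      simp at hre
      linarith
    · have := Complex.abs_re_le_norm ((R:ℂ) + (y:ℂ) * I)
      rw [hre, abs_of_pos hR0] at this
      exact this
  rw [sub_zero, abs_of_pos hR0] at h1
  rw [zero_sub, neg_neg, abs_of_pos hR0] at h2
  have h3 : C / R ^ 2 * R = C / R := by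
    field_simp
  rw [h3] at h1 h2
  calc ‖far f R‖ ≤ ‖∫ x in (0:ℝ)..R, f (x + ((-R : ℝ) : ℂ) * I)‖ +
        ‖I * ∫ y in (-R)..(0:ℝ), f ((R:ℂ) + y * I)‖ := norm_add_le _ _
    _ ≤ C / R + C / R := by
        rw [norm_mul, Complex.norm_I, one_mul]
        exact add_le_add h1 h2
    _ = 2 * C / R := by ring

theorem far_inv {R : ℝ} (hR : 0 < R) : far (fun z => z⁻¹) R = I * (Real.pi / 2) := by
  have e1 : ∀ x : ℝ, HasDerivAt (fun x : ℝ => (x:ℂ) + ((-R : ℝ) : ℂ) * I) 1 x := fun x =>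
    (Complex.ofRealCLM.hasDerivAt (x := x)).add_const _
  have e2 : ∀ y : ℝ, HasDerivAt (fun y : ℝ => (R:ℂ) + (y : ℂ) * I) I y := fun y => by
    have := ((Complex.ofRealCLM.hasDerivAt (x := y)).mul_const I).const_add (R:ℂ)
    simpa using this
  have m1 : ∀ x : ℝ, (x:ℂ) + ((-R : ℝ) : ℂ) * I ∈ slitPlane := by
    intro x
    rw [mem_slitPlane_iff]
    right
    simp
    exact hR.ne'
  have m2 : ∀ y : ℝ, (R:ℂ) + (y : ℂ) * I ∈ slitPlane := by
    intro y
    rw [mem_slitPlane_iff]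
    left
    simpa using hR
  have c1 : Continuous fun x : ℝ => ((x:ℂ) + ((-R : ℝ) : ℂ) * I)⁻¹ := by
    refine Continuous.inv₀ (by fun_prop) fun x => slitPlane_ne_zero (m1 x)
  have c2 : Continuous fun y : ℝ => ((R:ℂ) + (y : ℂ) * I)⁻¹ := by
    refine Continuous.inv₀ (by fun_prop) fun y => slitPlane_ne_zero (m2 y)
  have h1 : ∫ x in (0:ℝ)..R, ((x:ℂ) + ((-R : ℝ) : ℂ) * I)⁻¹ =
      Complex.log ((R:ℂ) + ((-R : ℝ) : ℂ) * I) - Complex.log (((0:ℝ):ℂ) + ((-R : ℝ) : ℂ) * I) := by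
    refine intervalIntegral.integral_eq_sub_of_hasDerivAt (f := fun x : ℝ =>
      Complex.log ((x:ℂ) + ((-R : ℝ) : ℂ) * I)) (fun x _ => ?_) (c1.intervalIntegrable _ _)
    have := (e1 x).clog_real (m1 x)
    simpa using this
  have h2 : ∫ y in (-R)..(0:ℝ), I * ((R:ℂ) + (y : ℂ) * I)⁻¹ =
      Complex.log ((R:ℂ) + ((0:ℝ) : ℂ) * I) - Complex.log ((R:ℂ) + ((-R : ℝ) : ℂ) * I) := by
    refine intervalIntegral.integral_eq_sub_of_hasDerivAt (f := fun y : ℝ =>
      Complex.log ((R:ℂ) + (y : ℂ) * I)) (fun y _ => ?_)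
      ((c2.const_mul I).intervalIntegrable _ _)
    have := (e2 y).clog_real (m2 y)
    rwa [div_eq_mul_inv] at this
  rw [far, ← intervalIntegral.integral_const_mul, h1, h2]
  have h3 : Complex.log ((R:ℂ) + ((0:ℝ) : ℂ) * I) = (Real.log R : ℂ) := by
    simp [Complex.ofReal_log hR.le]
  have h4 : Complex.log (((0:ℝ):ℂ) + ((-R : ℝ) : ℂ) * I) = (Real.log R : ℂ) - I * (Real.pi / 2) := by
    have h5 : ((0:ℝ):ℂ) + ((-R : ℝ) : ℂ) * I = (R : ℂ) * (-I) := by
      push_cast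
      ring
    rw [h5, Complex.log_ofReal_mul hR (by simp), Complex.log_neg_I]
    ring
  rw [h3, h4]
  ring

theorem far_int {f : ℂ → ℂ} (hf : ContinuousOn f Qd) {R : ℝ} (hR : 0 < R) :
    IntervalIntegrable (fun x : ℝ => f (x + ((-R : ℝ) : ℂ) * I)) volume 0 R ∧
      IntervalIntegrable (fun y : ℝ => f ((R:ℂ) + y * I)) volume (-R) 0 := by
  constructor
  · refine ContinuousOn.intervalIntegrable ?_
    refine hf.comp (f := fun x : ℝ => (x:ℂ) + ((-R : ℝ) : ℂ) * I) (by fun_prop) ?_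
    intro x hx
    rw [uIcc_of_le hR.le] at hx
    have hre : ((x:ℂ) + ((-R : ℝ) : ℂ) * I).re = x := by simp
    have him : ((x:ℂ) + ((-R : ℝ) : ℂ) * I).im = -R := by simp
    refine ⟨by rw [hre]; exact hx.1, by rw [him]; linarith, ?_⟩
    intro h
    simp only [] at h
    rw [h] at him
    simp at him
    linarith
  · refine ContinuousOn.intervalIntegrable ?_
    refine hf.comp (f := fun y : ℝ => (R:ℂ) + (y : ℂ) * I) (by fun_prop) ?_
    intro y hy
    rw [uIcc_of_le (by linarith : -R ≤ 0)] at hy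
    have hre : ((R:ℂ) + (y:ℂ) * I).re = R := by simp
    have him : ((R:ℂ) + (y:ℂ) * I).im = y := by simp
    refine ⟨by rw [hre]; exact hR.le, by rw [him]; exact hy.2, ?_⟩
    intro h
    simp only [] at h
    rw [h] at hre
    simp at hre
    linarith

theorem far_sub {f g : ℂ → ℂ} (hf : ContinuousOn f Qd) (hg : ContinuousOn g Qd) (c : ℂ) {R : ℝ}
    (hR : 0 < R) : far (fun z => f z - c * g z) R = far f R - c * far g R := by
  obtain ⟨f1, f2⟩ := far_int hf hR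
  obtain ⟨g1, g2⟩ := far_int hg hR
  rw [far, far, far, intervalIntegral.integral_sub f1 (g1.const_mul c),
    intervalIntegral.integral_sub f2 (g2.const_mul c), intervalIntegral.integral_const_mul,
    intervalIntegral.integral_const_mul]
  ring

theorem Fprop (hreg : G_HREG) (real : G_REAL) {p : ℤ} (hp : p = 1 ∨ p = -1) {k : ℕ}
    (hk : k = 1 ∨ k = 3) :
    ContinuousOn (fun t : ℂ => t ^ k * Hp p t) {z | 0 ≤ z.re ∧ z.im ≤ 0} ∧
      DifferentiableOn ℂ (fun t : ℂ => t ^ k * Hp p t) Qo ∧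
      ∀ y : ℝ, y ≤ 0 → ((fun t : ℂ => t ^ k * Hp p t) (y * I)).re = 0 := by
  obtain ⟨hc, hd, C, hC⟩ := hreg p hp
  have hk1 : 1 ≤ k := by omega
  have hk0 : k ≠ 0 := by omega
  refine ⟨?_, ?_, ?_⟩
  · intro t ht
    by_cases ht0 : t = 0
    · subst ht0
      rw [ContinuousWithinAt]
      have e0 : (0:ℂ) ^ k * Hp p 0 = 0 := by
        simp [hk0]
      rw [e0]
      refine squeeze_zero_norm' (a := fun z : ℂ => |C| * ‖z‖ ^ (1 / 4 : ℝ)) ?_ ?_
      · have h1 : ∀ᶠ z : ℂ in 𝓝[{z | 0 ≤ z.re ∧ z.im ≤ 0}] 0, ‖z‖ ≤ 1 := by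
          refine nhdsWithin_le_nhds ?_
          filter_upwards [Metric.ball_mem_nhds (0:ℂ) one_pos] with z hz
          rw [mem_ball_zero_iff] at hz
          exact hz.le
        filter_upwards [h1, self_mem_nhdsWithin] with z hz1 hz2
        by_cases hz0 : z = 0
        · subst hz0
          simp [hk0]
        · have hpos : 0 < ‖z‖ := norm_pos_iff.2 hz0
          rw [norm_mul, norm_pow]
          have h2 : ‖z‖ ^ k ≤ ‖z‖ := by
            calc ‖z‖ ^ k ≤ ‖z‖ ^ 1 := pow_le_pow_of_le_one hpos.le hz1 hk1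
              _ = ‖z‖ := pow_one _
          have h3 := hC z ⟨hz2.1, hz2.2, hz0⟩ hz1
          have h4 : C * ‖z‖ ^ (-(3 / 4) : ℝ) ≤ |C| * ‖z‖ ^ (-(3 / 4) : ℝ) :=
            mul_le_mul_of_nonneg_right (le_abs_self C) (Real.rpow_nonneg hpos.le _)
          calc ‖z‖ ^ k * ‖Hp p z‖ ≤ ‖z‖ * (|C| * ‖z‖ ^ (-(3 / 4) : ℝ)) :=
                mul_le_mul h2 (h3.trans h4) (norm_nonneg _) hpos.le
            _ = |C| * (‖z‖ ^ (1:ℝ) * ‖z‖ ^ (-(3 / 4) : ℝ)) := by
                rw [Real.rpow_one]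
                ring
            _ = |C| * ‖z‖ ^ (1 / 4 : ℝ) := by
                rw [← Real.rpow_add hpos]
                norm_num
      · have h5 : Tendsto (fun z : ℂ => |C| * ‖z‖ ^ (1 / 4 : ℝ)) (𝓝 0) (𝓝 (|C| * ‖(0:ℂ)‖ ^ (1 / 4 : ℝ))) := by
          refine Tendsto.const_mul _ ?_
          exact (continuous_norm.continuousAt.rpow_const (Or.inr (by norm_num))).tendsto
        rw [norm_zero, Real.zero_rpow (by norm_num), mul_zero] at h5
        exact h5.mono_left nhdsWithin_le_nhds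
    · have hQ : t ∈ Qd := ⟨ht.1, ht.2, ht0⟩
      have h1 : ContinuousWithinAt (fun t : ℂ => t ^ k * Hp p t) Qd t :=
        ((continuous_pow k).continuousWithinAt).mul (hc t hQ)
      refine h1.mono_of_mem_nhdsWithin ?_
      have h2 : {z : ℂ | 0 ≤ z.re ∧ z.im ≤ 0} ∩ {0}ᶜ ∈ 𝓝[{z : ℂ | 0 ≤ z.re ∧ z.im ≤ 0}] t :=
        inter_mem_nhdsWithin _ (isOpen_compl_singleton.mem_nhds ht0)
      refine Filter.mem_of_superset h2 ?_
      rintro z ⟨hz1, hz2⟩
      exact ⟨hz1.1, hz1.2, hz2⟩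
  · exact ((differentiable_pow k).differentiableOn).mul hd
  · intro y hy
    rcases hy.lt_or_eq with hy | hy
    · have h1 := real p hp (-y) (by linarith)
      have h2 : (-(I * ((-y : ℝ) : ℂ))) = (y : ℂ) * I := by
        push_cast
        ring
      rw [h2] at h1
      simp only []
      rw [Complex.mul_re, h1, mul_zero, sub_zero]
      have h3 : (((y:ℂ) * I) ^ k).re = 0 := by
        rcases hk with rfl | rfl
        · simp
        · have : ((y:ℂ) * I) ^ 3 = ((-(y ^ 3) : ℝ) : ℂ) * I := by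
            push_cast
            rw [mul_pow, Complex.I_pow_three]
            ring
          rw [this, Complex.re_ofReal_mul]
          simp
      rw [h3, zero_mul]
    · subst hy
      simp [hk0]

theorem small {F : ℂ → ℂ} (hc : ContinuousOn F {z | 0 ≤ z.re ∧ z.im ≤ 0})
    (hd : DifferentiableOn ℂ F Qo) (h0 : ∀ y : ℝ, y ≤ 0 → (F (y * I)).re = 0) (a C : ℝ)
    (hf : ∀ z ∈ Qd, 1 ≤ ‖z‖ → ‖F z - (a:ℂ) * z⁻¹‖ ≤ C / ‖z‖ ^ 2) :
    Tendsto (fun R : ℝ => (∫ x in (0:ℝ)..R, F x).im) atTop (𝓝 (a * (Real.pi / 2))) := by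
  have hC : 0 ≤ C := by
    have h1 := hf 1 ⟨by simp, by simp, one_ne_zero⟩ (by simp)
    have h2 := (norm_nonneg _).trans h1
    simpa using h2
  have hcQ : ContinuousOn F Qd := hc.mono fun z hz => ⟨hz.1, hz.2.1⟩
  have hinv : ContinuousOn (fun z : ℂ => z⁻¹) Qd := fun z hz =>
    (continuousAt_inv₀ hz.2.2).continuousWithinAt
  rw [tendsto_iff_norm_sub_tendsto_zero]
  refine squeeze_zero' (g := fun R : ℝ => 2 * C / R)
    (Filter.Eventually.of_forall fun _ => norm_nonneg _) ?_ ?_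
  · filter_upwards [eventually_ge_atTop (1:ℝ)] with R hR
    have hR0 : 0 < R := by linarith
    rw [rect hc hd h0 hR0]
    have h1 := far_bound hf hR hC
    rw [far_sub hcQ hinv (a:ℂ) hR0, far_inv hR0] at h1
    refine le_trans ?_ h1
    have h2 := Complex.abs_im_le_norm (far F R - (a:ℂ) * (I * (Real.pi / 2)))
    refine le_trans (le_of_eq ?_) h2
    rw [Real.norm_eq_abs]
    congr 1
    rw [Complex.sub_im]
    congr 1
    have : (a:ℂ) * (I * (Real.pi / 2)) = ((a * (Real.pi / 2) : ℝ) : ℂ) * I := by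
      push_cast
      ring
    rw [this]
    simp
  · exact tendsto_const_nhds.div_atTop tendsto_id

/-- RECT. -/
theorem thm (hreg : G_HREG) (asy : G_ASY) (real : G_REAL) : G_RECT := by
  obtain ⟨C, hC⟩ := asy
  have hm : ∀ k : ℕ, k = 1 ∨ k = 3 → Tendsto
      (fun R : ℝ => (∫ t in (0:ℝ)..R, (t:ℂ) ^ k * Hp (-1) t).im) atTop (𝓝 0) := by
    intro k hk
    obtain ⟨h1, h2, h3⟩ := Fprop hreg real (p := -1) (Or.inr rfl) hk
    have h4 := small h1 h2 h3 0 C (fun z hz hz1 => by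
      have hpos : 0 < ‖z‖ := by linarith
      have h5 := (hC z hz hz1).2
      have h6 : ‖z‖ ^ k ≤ ‖z‖ ^ 4 := pow_le_pow_right₀ hz1 (by omega)
      have hC0 : 0 ≤ C / ‖z‖ ^ 6 := (norm_nonneg _).trans h5
      simp only [ofReal_zero, zero_mul, sub_zero]
      rw [norm_mul, norm_pow]
      calc ‖z‖ ^ k * ‖Hp (-1) z‖ ≤ ‖z‖ ^ 4 * (C / ‖z‖ ^ 6) :=
            mul_le_mul h6 h5 (norm_nonneg _) (by positivity)
        _ = C / ‖z‖ ^ 2 := by
            field_simp)
    rw [zero_mul] at h4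
    exact h4
  refine ⟨?_, ?_, hm 3 (Or.inr rfl)⟩
  · obtain ⟨h1, h2, h3⟩ := Fprop hreg real (p := 1) (Or.inl rfl) (k := 3) (Or.inr rfl)
    have h4 := small h1 h2 h3 (5 / 16) C (fun z hz hz1 => by
      have hpos : 0 < ‖z‖ := by linarith
      have hz0 : z ≠ 0 := hz.2.2
      have h5 := (hC z hz hz1).1
      have h6 : z ^ 3 * Hp 1 z - ((5 / 16 : ℝ) : ℂ) * z⁻¹ =
          z ^ 3 * (Hp 1 z - 5 / 16 * (z ^ 4)⁻¹) := by
        push_cast
        field_simp
      rw [h6, norm_mul, norm_pow]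
      calc ‖z‖ ^ 3 * ‖Hp 1 z - 5 / 16 * (z ^ 4)⁻¹‖ ≤ ‖z‖ ^ 3 * (C / ‖z‖ ^ 5) :=
            mul_le_mul_of_nonneg_left h5 (by positivity)
        _ = C / ‖z‖ ^ 2 := by
            field_simp)
    have h7 : (5 / 16 : ℝ) * (Real.pi / 2) = 5 * Real.pi / 32 := by ring
    rw [h7] at h4
    exact h4
  · have := hm 1 (Or.inl rfl)
    simpa using this

end Pool.Agent.Helper62.EC.I_RECT
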